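import Mathlib
import Pool.Agent.N870.EC.Fam
import Pool.Agent.N870.EC.Selge
import Pool.Agent.N454.EC.CNT2
import Pool.Agent.N568.EC.DEN
import Pool.Agent.N279.EC.Fam2
import Pool.Agent.N530.EC.SZ2
import Pool.Agent.N756.EC.Card2a
import Pool.Agent.Y728.RC.Se
import Pool.Agent.W307.FK.Main
import Pool.Agent.W307.RT.Tors
import Pool.Agent.N559.EG.COMBK
import Pool.Agent.N284.EG.Disc
import Pool.Agent.N284.EG.LogLow

/-!
# The growth of the moments of the 2-Selmer groups, ordered by the minimal discriminant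

All elliptic curves over `ℚ` with full rational 2-torsion, ordered by the absolute value of the
minimal discriminant. For a real number `s > 0` the average of `#Sel₂ ^ s` over the curves of
minimal discriminant at most `Z` is bounded if and only if `s ≤ 2`. The growth of all the moments of
integral order is determined: the `k`-th moment, `k ≥ 2`, is `(log Z) ^ (e(k) + o(1))` and at most
`C (1 + log Z) ^ e(k)`, where `e(s) = (2 ^ s - 1) / 2 - 2 (1 - 2 ^ (-s))`. The lower bound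
`(log Z) ^ (e(s) - ε)` holds for all real numbers `s > 0`.

The ordering by the naive height is treated in `MP_8cb858_nt.MomentGrowth` (helper870 and the authors
named there), from which the main parts are taken; the boundedness for `s = 2` is the theorem of the
library (project FK).
-/

set_option autoImplicit false

namespace Pool.Agent.Results.MP_6073f3_nt.DiscriminantGrowth

open Finset Filter Topology
open Pool.Agent.Y667.SX (Sel2H)

/-- the curve `y² = x³ + A x + B` over `ℚ`, `c = (A, B)` -/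
def E (c : ℤ × ℤ) : WeierstrassCurve ℚ := ⟨0, 0, 0, (c.1 : ℚ), (c.2 : ℚ)⟩

/-- the absolute value of the minimal discriminant of an elliptic curve `W` over `ℚ`: the smallest
absolute value of the discriminant of a Weierstrass equation `V` with integer coefficients which is
isomorphic to `W` over `ℚ` -/
noncomputable def minDisc (W : WeierstrassCurve ℚ) : ℕ :=
  sInf {n : ℕ | ∃ (V : WeierstrassCurve ℤ) (C : WeierstrassCurve.VariableChange ℚ),
    C • W = V.map (Int.castRingHom ℚ) ∧ n = V.Δ.natAbs}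

/-- The pairs `(A, B)` of integers such that `4 A³ + 27 B² ≠ 0`, there is no prime `p` with
`p⁴ ∣ A` and `p⁶ ∣ B`, `Z/2 x Z/2` embeds in the group of the rational points of
`y² = x³ + A x + B`, and the minimal discriminant of this curve is at most `Z` in absolute value.
Every elliptic curve over `ℚ` with full rational 2-torsion is isomorphic to `E c` for exactly one
pair `c` with the first three properties. -/
def Fam (Z : ℕ) : Set (ℤ × ℤ) :=
  {c : ℤ × ℤ | 4 * c.1 ^ 3 + 27 * c.2 ^ 2 ≠ 0 ∧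
    (∀ p : ℕ, p.Prime → ¬ ((p : ℤ) ^ 4 ∣ c.1 ∧ (p : ℤ) ^ 6 ∣ c.2)) ∧
    (∃ f : ZMod 2 × ZMod 2 →+ (E c).toAffine.Point, Function.Injective f) ∧
    minDisc (E c) ≤ Z}

/-- the average of `#Sel₂ ^ s` over the curves of minimal discriminant at most `Z` -/
noncomputable def moment (s : ℝ) (Z : ℕ) : ℝ :=
  (∑ᶠ c ∈ Fam Z, (Nat.card (Sel2H (E c)) : ℝ) ^ s) / (Fam Z).ncard

/-! ### Comparison with the family of the library -/

lemma Fam_eq' (Z : ℕ) : Fam Z = Pool.Agent.W307.RS.DvS 2 Z := by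
  ext c
  have h : Pool.Agent.W307.RT.HasT 2 (Pool.Agent.W307.RT.Sh c.1 c.2) ↔
      ∃ f : ZMod 2 × ZMod 2 →+ (E c).toAffine.Point, Function.Injective f :=
    Pool.Agent.W307.RT.tors_iff
  unfold Fam Pool.Agent.W307.RS.DvS
  rw [Set.mem_ofPred_eq, Set.mem_ofPred_eq, h]
  exact Iff.rfl

lemma dfin (Z : ℕ) : (Pool.Agent.W307.RS.DvS 2 Z).Finite := by
  obtain ⟨C, hC⟩ := Pool.Agent.W307.FK.find
  exact (hC Z).1

/-- the curves of minimal discriminant at most `Z` -/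
noncomputable def DF (Z : ℕ) : Finset (ℤ × ℤ) := (dfin Z).toFinset

lemma DF_coe (Z : ℕ) : (DF Z : Set (ℤ × ℤ)) = Pool.Agent.W307.RS.DvS 2 Z :=
  Set.Finite.coe_toFinset _

lemma Fam_eq (Z : ℕ) : Fam Z = (DF Z : Set (ℤ × ℤ)) := by rw [DF_coe, Fam_eq']

lemma Cv_sub (Z : ℕ) : Pool.Agent.W307.RT.Cv 2 (Z / 32) ⊆ DF Z := by
  rw [← coe_subset, DF_coe]
  exact Pool.Agent.W307.RS.Cv_sub Pool.Agent.W554.RS.mdl 2 (Z / 32) Z (Nat.mul_div_le Z 32)

lemma tendstoH : Tendsto (fun Z : ℕ => (Fam Z).ncard) atTop atTop := by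
  simp only [Fam_eq, Set.ncard_coe_finset]
  have h1 := Pool.Agent.W307.RT.tendsto_of_low Pool.Agent.W672.FK.lowf
  have h2 : Tendsto (fun Z : ℕ => (Pool.Agent.W307.RT.Cv 2 (Z / 32)).card) atTop atTop :=
    h1.comp (Nat.tendsto_div_const_atTop (by norm_num))
  exact tendsto_atTop_mono (fun Z => card_le_card (Cv_sub Z)) h2

lemma mem_ok {Z : ℕ} {c : ℤ × ℤ} (h : c ∈ Fam Z) : 4 * c.1 ^ 3 + 27 * c.2 ^ 2 ≠ 0 ∧
    Pool.Agent.W307.RT.HasT 2 (Pool.Agent.W307.RT.Sh c.1 c.2) :=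
  ⟨h.1, Pool.Agent.W307.RT.tors_iff.2 h.2.2.1⟩

lemma sel_card {Z : ℕ} {c : ℤ × ℤ} (h : c ∈ Fam Z) :
    Nat.card (Sel2H (E c)) = (Pool.Agent.W307.SE.SelR c.1 c.2).ncard :=
  (Pool.Agent.Y728.RC.sel_eq (mem_ok h).1 (mem_ok h).2).1.2

lemma one_le {Z : ℕ} {c : ℤ × ℤ} (h : c ∈ Fam Z) :
    1 ≤ (Pool.Agent.W307.SE.SelR c.1 c.2).ncard := by
  obtain ⟨h1, h2⟩ := mem_ok h
  have h3 : (Pool.Agent.W307.SE.SelR c.1 c.2).Finite := by
    obtain ⟨C, hC⟩ := Pool.Agent.W307.FK.find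
    exact (hC Z).2.1 c (by rw [← Fam_eq']; exact h)
  obtain ⟨F, -, hF⟩ := Pool.Agent.W513.FK.parf
  obtain ⟨-, -, -, -, -, e1, e2, e3, he, -, -⟩ := hF c h1 h2
  exact Nat.one_le_two_pow.trans (Pool.Agent.W402.FK.rks c.1 c.2 e1 e2 e3 h1 he h3)

lemma moment_eq (s : ℝ) (Z : ℕ) : moment s Z = (∑ c ∈ DF Z,
    ((Pool.Agent.W307.SE.SelR c.1 c.2).ncard : ℝ) ^ s) / (DF Z).card := by
  unfold moment
  rw [finsum_mem_congr rfl (fun c hc => by rw [sel_card hc])]
  rw [Fam_eq, finsum_mem_coe_finset, Set.ncard_coe_finset]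

/-- the exponent -/
noncomputable def e (s : ℝ) : ℝ := (2 ^ s - 1) / 2 - 2 * (1 - 2 ^ (-s))

lemma e_eq (k : ℕ) : e k = Pool.Agent.N870.EG.EX k := by
  unfold e Pool.Agent.N870.EG.EX
  rw [Real.rpow_neg (by norm_num), Real.rpow_natCast, one_div]

lemma e_fac (s : ℝ) : e s = ((2 : ℝ) ^ s - 1) * (2 ^ s - 4) / (2 * 2 ^ s) := by
  have h0 : (0 : ℝ) < 2 ^ s := by positivity
  have hneg : (2 : ℝ) ^ (-s) = 1 / 2 ^ s := by rw [Real.rpow_neg (by norm_num), one_div]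
  unfold e
  rw [hneg]
  field_simp
  ring

lemma e_nonneg {k : ℕ} (hk : 2 ≤ k) : 0 ≤ e k := by
  rw [e_eq]
  exact Pool.Agent.N870.EG.EX_nonneg hk

lemma upper {k : ℕ} (hk : 2 ≤ k) : ∃ C : ℝ, 0 ≤ C ∧ ∀ Z : ℕ, 1 ≤ Z →
    moment k Z ≤ C * (1 + Real.log Z) ^ e k := by
  obtain ⟨C, hC0, hC⟩ := Pool.Agent.N284.EG.discq Pool.Agent.N559.EG.t_COMBK hk
  refine ⟨C, hC0, fun Z hZ => ?_⟩
  have hlZ : 0 ≤ Real.log (Z : ℝ) := Real.log_natCast_nonneg Z
  rw [moment_eq, e_eq]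
  refine div_le_of_le_mul₀ (Nat.cast_nonneg _) (by positivity) ?_
  have h1 := hC Z hZ (DF Z) (DF_coe Z)
  have h2 : ∑ c ∈ DF Z, ((Pool.Agent.W307.SE.SelR c.1 c.2).ncard : ℝ) ^ (k : ℝ) =
      ∑ c ∈ DF Z, ((Pool.Agent.W307.SE.SelR c.1 c.2).ncard : ℝ) ^ k :=
    sum_congr rfl fun c _ => Real.rpow_natCast _ _
  rw [h2]
  refine h1.trans (le_of_eq ?_)
  ring

/-- the lower bounds -/
lemma lower (s ε : ℝ) (hs : 0 < s) (hε : 0 < ε) : ∃ Z₀ : ℕ, ∀ Z : ℕ, Z₀ ≤ Z →
    (Real.log Z) ^ (e s - ε) ≤ moment s Z := by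
  obtain ⟨H0, hH0⟩ := Pool.Agent.N870.EC.low_two Pool.Agent.N454.EC.t_CNT2
    Pool.Agent.N568.EC.t_DEN2 Pool.Agent.N279.EC.t_FAM2
    (Pool.Agent.N530.EC.t_SZ2 Pool.Agent.N870.EC.selge) Pool.Agent.N756.EC.card2 s (ε / 2) hs
    (by positivity)
  obtain ⟨K, Z1, hK, hcard⟩ := Pool.Agent.N284.EG.disc_card Pool.Agent.N559.EG.t_COMBK
  obtain ⟨Z2, hZ2⟩ := Pool.Agent.N284.EG.low_abs (e := e s) (K := K) hε
  obtain ⟨Z3, hZ3⟩ := eventually_atTop.1 (tendstoH.eventually_ge_atTop 1)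
  refine ⟨32 * H0 + Z1 + Z2 + Z3, fun Z hZ => ?_⟩
  have h1 := hH0 (Z / 32) (by omega)
  have h2 := hcard Z (by omega) (DF Z) (DF_coe Z).le
  have h3 := hZ2 Z (by omega)
  have h4 := hZ3 Z (by omega)
  rw [Fam_eq, Set.ncard_coe_finset] at h4
  have h5 : (0 : ℝ) < (DF Z).card := by exact_mod_cast h4
  rw [moment_eq, le_div_iff₀ h5]
  have h6 : 0 ≤ Real.log (Z : ℝ) := Real.log_natCast_nonneg Z
  have h7 : 0 ≤ (Real.log (Z : ℝ)) ^ (e s - ε) := Real.rpow_nonneg h6 _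
  calc (Real.log Z) ^ (e s - ε) * (DF Z).card
      ≤ (Real.log Z) ^ (e s - ε) * (K * (Pool.Agent.W307.RT.Cv 2 (Z / 32)).card) :=
        mul_le_mul_of_nonneg_left h2 h7
    _ = (Pool.Agent.W307.RT.Cv 2 (Z / 32)).card * (K * (Real.log Z) ^ (e s - ε)) := by ring
    _ ≤ (Pool.Agent.W307.RT.Cv 2 (Z / 32)).card *
          (Real.log ((Z / 32 : ℕ) : ℝ)) ^ (e s - ε / 2) :=
        mul_le_mul_of_nonneg_left h3 (Nat.cast_nonneg _)
    _ ≤ ∑ c ∈ Pool.Agent.W307.RT.Cv 2 (Z / 32),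
          ((Pool.Agent.W307.SE.SelR c.1 c.2).ncard : ℝ) ^ s := h1
    _ ≤ ∑ c ∈ DF Z, ((Pool.Agent.W307.SE.SelR c.1 c.2).ncard : ℝ) ^ s :=
        sum_le_sum_of_subset_of_nonneg (Cv_sub Z) fun c _ _ =>
          Real.rpow_nonneg (Nat.cast_nonneg _) _

/-- the limit from the two bounds -/
lemma limit_of {M : ℕ → ℝ} {e C : ℝ} (hC : 0 < C)
    (hup : ∀ Z : ℕ, 1 ≤ Z → M Z ≤ C * (1 + Real.log Z) ^ e) (he : 0 ≤ e)
    (hlow : ∀ ε : ℝ, 0 < ε → ∃ Z₀ : ℕ, ∀ Z : ℕ, Z₀ ≤ Z → (Real.log Z) ^ (e - ε) ≤ M Z) :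
    Tendsto (fun Z : ℕ => Real.log (M Z) / Real.log (Real.log Z)) atTop (𝓝 e) := by
  rw [Metric.tendsto_atTop]
  intro δ hδ
  obtain ⟨Z₀, hZ₀⟩ := hlow (δ / 2) (by positivity)
  have hll : Tendsto (fun Z : ℕ => Real.log (Real.log (Z : ℝ))) atTop atTop :=
    Real.tendsto_log_atTop.comp (Real.tendsto_log_atTop.comp tendsto_natCast_atTop_atTop)
  obtain ⟨Z₁, hZ₁⟩ := eventually_atTop.1 (hll.eventually_ge_atTop
    (1 + (|Real.log C| + e * Real.log 2) * (2 / δ)))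
  obtain ⟨Z₂, hZ₂⟩ := eventually_atTop.1 ((Real.tendsto_log_atTop.comp
    (tendsto_natCast_atTop_atTop (R := ℝ))).eventually_ge_atTop 1)
  refine ⟨Z₀ + Z₁ + Z₂ + 3, fun Z hZ => ?_⟩
  have h1 := hZ₀ Z (by omega)
  have h2 := hZ₁ Z (by omega)
  have h3 : (1 : ℝ) ≤ Real.log Z := hZ₂ Z (by omega)
  have h4 := hup Z (by omega)
  obtain ⟨l, hl⟩ : ∃ l : ℝ, l = Real.log Z := ⟨_, rfl⟩
  rw [← hl] at h1 h2 h3 h4 ⊢
  have hl0 : 0 < l := by linarith
  have hlog2 : 0 < Real.log 2 := Real.log_pos (by norm_num)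
  have hK : 0 ≤ |Real.log C| + e * Real.log 2 := by positivity
  have hL1 : 1 ≤ Real.log l := by
    have : 0 ≤ (|Real.log C| + e * Real.log 2) * (2 / δ) := by positivity
    linarith
  have hL0 : 0 < Real.log l := by linarith
  have hM0 : 0 < M Z := lt_of_lt_of_le (Real.rpow_pos_of_pos hl0 _) h1
  have h5 : (e - δ / 2) * Real.log l ≤ Real.log (M Z) := by
    rw [← Real.log_rpow hl0]
    exact Real.log_le_log (Real.rpow_pos_of_pos hl0 _) h1
  have h6 : Real.log (M Z) ≤ |Real.log C| + e * (Real.log 2 + Real.log l) := by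
    have h7 : M Z ≤ C * (2 * l) ^ e := by
      refine h4.trans (mul_le_mul_of_nonneg_left ?_ hC.le)
      exact Real.rpow_le_rpow (by linarith) (by linarith) he
    have h8 := Real.log_le_log hM0 h7
    rw [Real.log_mul hC.ne' (by positivity), Real.log_rpow (by positivity),
      Real.log_mul (by norm_num) hl0.ne'] at h8
    linarith [le_abs_self (Real.log C)]
  have h7 : (|Real.log C| + e * Real.log 2) < δ * Real.log l := by
    have h8 : (|Real.log C| + e * Real.log 2) * (2 / δ) < Real.log l := by linarith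
    have h9 := mul_lt_mul_of_pos_left h8 hδ
    have h10 : δ * ((|Real.log C| + e * Real.log 2) * (2 / δ)) =
        2 * (|Real.log C| + e * Real.log 2) := by
      field_simp
    rw [h10] at h9
    linarith
  have h8 : Real.log (M Z) / Real.log l < e + δ := by
    rw [div_lt_iff₀ hL0]
    nlinarith
  have h9 : e - δ < Real.log (M Z) / Real.log l := by
    rw [lt_div_iff₀ hL0]
    nlinarith
  rw [Real.dist_eq, abs_lt]
  constructor <;> linarith

/-- **The growth of the moments of the 2-Selmer group over all elliptic curves with full 2-torsion.**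
Order all the elliptic curves over `ℚ` with full rational 2-torsion by the absolute value of the
minimal discriminant, and let `e s = (2 ^ s - 1) / 2 - 2 (1 - 2 ^ (-s))`, so that `e s > 0` exactly
for `s > 2`.

* For a real number `s > 0` the average of `#Sel₂ ^ s` over the curves of minimal discriminant at
  most `Z` is bounded if and only if `s ≤ 2`.
* For every real number `s > 0` and `ε > 0` it is at least `(log Z) ^ (e s - ε)` for large `Z`.
* For every integer `k ≥ 2` it is at most `C (1 + log Z) ^ (e k)`, `C` depending on `k` only; so it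
  is `(log Z) ^ (e k + o(1))`. -/
theorem result :
    (∀ Z : ℕ, (Fam Z).Finite) ∧ Tendsto (fun Z : ℕ => (Fam Z).ncard) atTop atTop ∧
    (∀ Z : ℕ, ∀ c ∈ Fam Z, Finite (Sel2H (E c))) ∧
    (∀ s : ℝ, 0 < s → ((∃ C : ℝ, ∀ Z : ℕ, moment s Z ≤ C) ↔ s ≤ 2)) ∧
    (∀ s ε : ℝ, 0 < s → 0 < ε → ∃ Z₀ : ℕ, ∀ Z : ℕ, Z₀ ≤ Z →
      (Real.log Z) ^ (e s - ε) ≤ moment s Z) ∧
    (∀ k : ℕ, 2 ≤ k → ∃ C : ℝ, ∀ Z : ℕ, 1 ≤ Z → moment k Z ≤ C * (1 + Real.log Z) ^ (e k)) ∧
    (∀ k : ℕ, 2 ≤ k →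
      Tendsto (fun Z : ℕ => Real.log (moment k Z) / Real.log (Real.log Z)) atTop (𝓝 (e k))) := by
  classical
  have hup : ∀ k : ℕ, 2 ≤ k → ∃ C : ℝ, 0 ≤ C ∧ ∀ Z : ℕ, 1 ≤ Z →
      moment k Z ≤ C * (1 + Real.log Z) ^ (e k) := fun k hk => upper hk
  refine ⟨fun Z => by rw [Fam_eq]; exact finite_toSet _, tendstoH, ?_, ?_, lower, ?_, ?_⟩
  · intro Z c hc
    exact (Pool.Agent.Y728.RC.sel_eq (mem_ok hc).1 (mem_ok hc).2).1.1
  · intro s hs
    constructor
    · rintro ⟨C, hC⟩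
      by_contra hs2
      push Not at hs2
      have h2s : (4 : ℝ) < 2 ^ s := by
        calc (4 : ℝ) = 2 ^ (2 : ℝ) := by norm_num
          _ < 2 ^ s := Real.rpow_lt_rpow_of_exponent_lt (by norm_num) hs2
      have he : 0 < e s := by
        rw [e_fac]
        apply div_pos
        · apply mul_pos <;> linarith
        · positivity
      obtain ⟨Z₀, hZ₀⟩ := lower s (e s / 2) hs (by positivity)
      obtain ⟨L1, hL1⟩ := eventually_atTop.1 (((tendsto_rpow_atTop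
        (show 0 < e s / 2 by positivity)).comp (Real.tendsto_log_atTop.comp
          (tendsto_natCast_atTop_atTop (R := ℝ)))).eventually_ge_atTop (C + 1))
      have h1 := hZ₀ (Z₀ + L1) (by omega)
      have h2 := hC (Z₀ + L1)
      have h3 : C + 1 ≤ (Real.log ((Z₀ + L1 : ℕ) : ℝ)) ^ (e s / 2) := hL1 (Z₀ + L1) (by omega)
      have h4 : e s - e s / 2 = e s / 2 := by ring
      rw [h4] at h1
      linarith
    · intro hs2
      obtain ⟨C, hC⟩ := Pool.Agent.W307.FK.find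
      refine ⟨max C 0, fun Z => ?_⟩
      rw [moment_eq]
      refine div_le_of_le_mul₀ (Nat.cast_nonneg _) (le_max_right _ _) ?_
      calc ∑ c ∈ DF Z, ((Pool.Agent.W307.SE.SelR c.1 c.2).ncard : ℝ) ^ s
          ≤ ∑ c ∈ DF Z, ((Pool.Agent.W307.SE.SelR c.1 c.2).ncard : ℝ) ^ 2 := by
            refine sum_le_sum fun c hc => ?_
            have h0 : c ∈ Fam Z := by rw [Fam_eq]; exact mem_coe.2 hc
            have h1 : (1 : ℝ) ≤ ((Pool.Agent.W307.SE.SelR c.1 c.2).ncard : ℝ) := by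
              exact_mod_cast one_le h0
            have h2 := Real.rpow_le_rpow_of_exponent_le h1
              (show s ≤ ((2 : ℕ) : ℝ) by push_cast; linarith)
            rwa [Real.rpow_natCast] at h2
        _ ≤ C * (DF Z).card := (hC Z).2.2 (DF Z) (DF_coe Z)
        _ ≤ max C 0 * (DF Z).card :=
            mul_le_mul_of_nonneg_right (le_max_left _ _) (Nat.cast_nonneg _)
  · intro k hk
    obtain ⟨C, -, hC⟩ := hup k hk
    exact ⟨C, hC⟩
  · intro k hk
    obtain ⟨C, hC0, hC⟩ := hup k hk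
    have hk0 : (0 : ℝ) < k := by exact_mod_cast (show 0 < k by omega)
    refine limit_of (C := C + 1) (by linarith) (fun Z hZ => ?_) (e_nonneg hk)
      (fun ε hε => lower k ε hk0 hε)
    refine (hC Z hZ).trans (mul_le_mul_of_nonneg_right (by linarith) ?_)
    have : 0 ≤ Real.log (Z : ℝ) := Real.log_natCast_nonneg Z
    positivity

end Pool.Agent.Results.MP_6073f3_nt.DiscriminantGrowth
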