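import Mathlib
import Pool.Agent.N870.H.Fin
import Pool.Agent.N870.EC.Selge
import Pool.Agent.N861.EC.PW
import Pool.Agent.N701.H.AVGK
import Pool.Agent.N547.H.Conv
import Pool.Agent.N80.H.CNTF
import Pool.Agent.N935.H.MERK
import Pool.Agent.N82.H_FAMK
import Pool.Agent.N870.H.MakH
import Pool.Agent.N574.H.LOWH

/-!
# The moments of `2 ^ rank * #Ш[2]` in elliptic surfaces over the projective line

Let `F₀`, `F₁` and `F₂ = F₀ - F₁` be binary forms of even degree with integer coefficients, `F_k`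
being a constant times a product of powers of `n_k` linear forms, all these `n = n₀ + n₁ + n₂` linear
forms being pairwise non-proportional. The curves `W_{u,v} : y² = x (x - F₀(u,v)) (x - F₁(u,v))` are
the fibres at the rational points `(u : v)` of an elliptic surface with full 2-torsion over the
projective line; for example, the universal elliptic curves over `X_1(2, 4)`,
`y² = x (x + u²) (x + v²)`, and over `X_1(2, 6)` are of this form. The bad fibres are over the zeros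
of the linear forms; let `s_k` be the number of the factors of `F_k` over whose zeros the reduction
is split multiplicative; if the exponent of a linear form is even, we assume that its fibre is split.
Put `e_k(s) = (2 ^ s - 1) (n_k + s_k) / 2 - (1 - 2 ^ (-s)) (n - n_k)` and
`g(s) = max (0, e₀(s), e₁(s), e₂(s))`.

* For every integer `q ≥ 1` the sum of `(2 ^ rank * #Ш(W_{u,v})[2]) ^ q` over the coprime `u`, `v` of
  absolute value at most `X` is at most a constant times `X² (1 + log X) ^ g(q)`; for all real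
  `s, ε > 0` the sum for the exponent `s` is at least `X² (log X) ^ (g(s) - ε)` for large `X`.
* The moment of order `q` is bounded if and only if `g(q) = 0`. The average of `2 ^ rank * #Ш[2]` is
  bounded if and only if `2 n_k + s_k ≤ n` for `k = 0, 1, 2`; the second moment is bounded if and
  only if `n₀ = n₁ = n₂` and `s_k = 0` for all `k`; no moment of order greater than 2 is bounded.
* Hence the number of the coprime `u`, `v` of absolute value at most `X` for which the rank is at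
  least `r` is `O(2 ^ (-q r) X² (1 + log X) ^ g(q))`, uniformly in `r`.

Parts of the proof are due to helper701, helper547, helper80, helper935, helper574, helper82,
helper222, helper263, helper861 and helper454.
-/

set_option autoImplicit false

namespace Pool.Agent.Results.MP_6073f3_nt.MomentsOverProjectiveLine

open Finset

open Pool.Agent.TH841.SH.D (ShaTor rk)

/-- the curve `y² = x (x - A) (x - B)` over `ℚ` -/
def E (A B : ℤ) : WeierstrassCurve ℚ := ⟨0, -((A : ℚ) + B), 0, (A : ℚ) * B, 0⟩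

/-- the binary form `F_k(u, v) = a_k ∏_i (α u + β v) ^ m`, where `l k i = (α, β)` and `m = m k i` -/
def F {n : Fin 3 → ℕ} (a : Fin 3 → ℤ) (l : ∀ k : Fin 3, Fin (n k) → ℤ × ℤ)
    (m : ∀ k : Fin 3, Fin (n k) → ℕ) (k : Fin 3) (u v : ℤ) : ℤ :=
  a k * ∏ i, ((l k i).1 * u + (l k i).2 * v) ^ m k i

/-- at the zero `(β, -α)` of the linear form `α u + β v` of `F_k` the curve
`y² = x (x - F₀) (x - F₁)` has a node whose tangent directions are the square roots of this number;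
so the reduction there is split if and only if this number is a square -/
def κ {n : Fin 3 → ℕ} (a : Fin 3 → ℤ) (l : ∀ k : Fin 3, Fin (n k) → ℤ × ℤ)
    (m : ∀ k : Fin 3, Fin (n k) → ℕ) (k : Fin 3) (i : Fin (n k)) : ℤ :=
  ![-(F a l m 1 (l k i).2 (-(l k i).1)), -(F a l m 0 (l k i).2 (-(l k i).1)),
    F a l m 0 (l k i).2 (-(l k i).1)] k

open Classical in
/-- the number `s_k` of the factors of `F_k` with split multiplicative reduction -/
noncomputable def sp {n : Fin 3 → ℕ} (a : Fin 3 → ℤ) (l : ∀ k : Fin 3, Fin (n k) → ℤ × ℤ)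
    (m : ∀ k : Fin 3, Fin (n k) → ℕ) (k : Fin 3) : ℕ :=
  (univ.filter (fun i => IsSquare (κ a l m k i))).card

/-- the fibre at `(u : v)` -/
noncomputable def fib {n : Fin 3 → ℕ} (a : Fin 3 → ℤ) (l : ∀ k : Fin 3, Fin (n k) → ℤ × ℤ)
    (m : ∀ k : Fin 3, Fin (n k) → ℕ) (u v : ℤ) : WeierstrassCurve ℚ :=
  E (F a l m 0 u v) (F a l m 1 u v)

open Classical in
/-- the sum of `(2 ^ rank * #Ш[2]) ^ s` over the coprime `u`, `v` of absolute value at most `X` for
which the fibre is an elliptic curve -/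
noncomputable def Mom {n : Fin 3 → ℕ} (a : Fin 3 → ℤ) (l : ∀ k : Fin 3, Fin (n k) → ℤ × ℤ)
    (m : ∀ k : Fin 3, Fin (n k) → ℕ) (s : ℝ) (X : ℕ) : ℝ :=
  ∑ t ∈ (Icc (-(X : ℤ)) X ×ˢ Icc (-(X : ℤ)) X).filter
    (fun t : ℤ × ℤ => IsCoprime t.1 t.2 ∧ ∀ k, F a l m k t.1 t.2 ≠ 0),
    ((2 : ℝ) ^ rk (fib a l m t.1 t.2) * (Nat.card (ShaTor (fib a l m t.1 t.2) 2) : ℝ)) ^ s

open Classical in
/-- the number of the coprime `u`, `v` of absolute value at most `X` for which the fibre is an elliptic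
curve of rank at least `r` -/
noncomputable def High {n : Fin 3 → ℕ} (a : Fin 3 → ℤ) (l : ∀ k : Fin 3, Fin (n k) → ℤ × ℤ)
    (m : ∀ k : Fin 3, Fin (n k) → ℕ) (r X : ℕ) : ℕ :=
  ((Icc (-(X : ℤ)) X ×ˢ Icc (-(X : ℤ)) X).filter
    (fun t : ℤ × ℤ => (IsCoprime t.1 t.2 ∧ ∀ k, F a l m k t.1 t.2 ≠ 0) ∧
      r ≤ rk (fib a l m t.1 t.2))).card

/-- the moment of order `s` is bounded -/
def Bounded {n : Fin 3 → ℕ} (a : Fin 3 → ℤ) (l : ∀ k : Fin 3, Fin (n k) → ℤ × ℤ)
    (m : ∀ k : Fin 3, Fin (n k) → ℕ) (s : ℝ) : Prop :=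
  ∃ C : ℝ, ∀ X : ℕ, 1 ≤ X → Mom a l m s X ≤ C * (X : ℝ) ^ 2

/-- the exponent `e_k(s)` -/
noncomputable def e {n : Fin 3 → ℕ} (a : Fin 3 → ℤ) (l : ∀ k : Fin 3, Fin (n k) → ℤ × ℤ)
    (m : ∀ k : Fin 3, Fin (n k) → ℕ) (s : ℝ) (k : Fin 3) : ℝ :=
  (2 ^ s - 1) * (((n k : ℝ) + sp a l m k) / 2) - (1 - 2 ^ (-s)) * (n 0 + n 1 + n 2 - n k : ℝ)

/-- the exponent `g(s)` of the growth of the moment of order `s` -/
noncomputable def grow {n : Fin 3 → ℕ} (a : Fin 3 → ℤ) (l : ∀ k : Fin 3, Fin (n k) → ℤ × ℤ)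
    (m : ∀ k : Fin 3, Fin (n k) → ℕ) (s : ℝ) : ℝ :=
  max 0 (max (e a l m s 0) (max (e a l m s 1) (e a l m s 2)))

lemma high_le {n : Fin 3 → ℕ} (a : Fin 3 → ℤ) (l : ∀ k : Fin 3, Fin (n k) → ℤ × ℤ)
    (m : ∀ k : Fin 3, Fin (n k) → ℕ)
    (hF : ∀ u v : ℤ, F a l m 0 u v - F a l m 1 u v = F a l m 2 u v) (q r X : ℕ) :
    (High a l m r X : ℝ) * 2 ^ (q * r) ≤ Mom a l m q X := by
  classical
  unfold High Mom
  rw [← nsmul_eq_mul, ← sum_const]
  have hsub : (Icc (-(X : ℤ)) X ×ˢ Icc (-(X : ℤ)) X).filter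
      (fun t : ℤ × ℤ => (IsCoprime t.1 t.2 ∧ ∀ k, F a l m k t.1 t.2 ≠ 0) ∧
        r ≤ rk (fib a l m t.1 t.2)) ⊆
      (Icc (-(X : ℤ)) X ×ˢ Icc (-(X : ℤ)) X).filter
        (fun t : ℤ × ℤ => IsCoprime t.1 t.2 ∧ ∀ k, F a l m k t.1 t.2 ≠ 0) := by
    intro t ht
    exact mem_filter.2 ⟨(mem_filter.1 ht).1, (mem_filter.1 ht).2.1⟩
  refine le_trans (sum_le_sum fun t ht => ?_) (sum_le_sum_of_subset_of_nonneg hsub
    fun t _ _ => Real.rpow_nonneg (by positivity) _)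
  obtain ⟨-, ⟨-, h1⟩, h2⟩ := mem_filter.1 ht
  have h3 := Pool.Agent.N870.D.one_le_mw (h1 0) (h1 1) fun h5 => by
    apply h1 2
    rw [← hF, h5, sub_self]
  have h4 : (1 : ℝ) ≤ 2 ^ rk (fib a l m t.1 t.2) *
      (Nat.card (ShaTor (fib a l m t.1 t.2) 2) : ℝ) := h3
  have h5 : (1 : ℝ) ≤ (Nat.card (ShaTor (fib a l m t.1 t.2) 2) : ℝ) := by
    have h6 : Nat.card (ShaTor (fib a l m t.1 t.2) 2) ≠ 0 := by
      intro h7
      rw [h7] at h4
      norm_num at h4
    exact_mod_cast Nat.one_le_iff_ne_zero.2 h6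
  rw [Real.rpow_natCast, mul_comm q r, pow_mul]
  refine pow_le_pow_left₀ (by positivity) ?_ q
  calc (2 : ℝ) ^ r ≤ 2 ^ rk (fib a l m t.1 t.2) := pow_le_pow_right₀ (by norm_num) h2
    _ = 2 ^ rk (fib a l m t.1 t.2) * 1 := (mul_one _).symm
    _ ≤ _ := mul_le_mul_of_nonneg_left h5 (by positivity)

/-- **Theorem.** Let `F_k = a_k ∏_{i < n_k} (l k i) ^ (m k i)`, `k = 0, 1, 2`, be binary forms of even
degree with integer coefficients with `F₀ - F₁ = F₂`, where `a_k ≠ 0`, the `n₀ + n₁ + n₂ > 0` linear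
forms `l k i` are nonzero and pairwise non-proportional and `m k i ≥ 1`; if `m k i` is even, let the
reduction of `y² = x (x - F₀) (x - F₁)` at the zero of `l k i` be split. Let `s_k` be the number of
the `i` for which it is split, `n = n₀ + n₁ + n₂`,
`e_k(s) = (2 ^ s - 1) (n_k + s_k) / 2 - (1 - 2 ^ (-s)) (n - n_k)`, and let `g(s)` be the largest of
the numbers `0`, `e₀(s)`, `e₁(s)`, `e₂(s)`. The sums are over the coprime `u`, `v` of absolute value
at most `X` with `F_k(u, v) ≠ 0` for all `k`.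

(1) For every integer `q ≥ 1` there is `K` such that the sum of `(2 ^ rank * #Ш(W_{u,v})[2]) ^ q` is at
most `K X² (1 + log X) ^ g(q)` for all `X ≥ 1`.
(2) For all real `s, ε > 0` the sum of `(2 ^ rank * #Ш(W_{u,v})[2]) ^ s` is at least
`X² (log X) ^ (g(s) - ε)` for all large `X`.
(3) For integers `q ≥ 1` the moment of order `q` is bounded if and only if `g(q) = 0`.
(4) The average of `2 ^ rank * #Ш[2]` is bounded if and only if `2 n_k + s_k ≤ n` for `k = 0, 1, 2`.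
(5) The second moment is bounded if and only if `n₀ = n₁ = n₂` and all the `s_k` are zero.
(6) No moment of order `s > 2` is bounded.
(7) For every integer `q ≥ 1` there is `K` such that for all `X ≥ 1` and all `r` the number of these
`u`, `v` for which the rank of `W_{u,v}` is at least `r` is at most
`K 2 ^ (-q r) X² (1 + log X) ^ g(q)`; here `g(1) = 0` in the case (4), and `g(2) = 0` in the case
(5). -/
theorem result (n : Fin 3 → ℕ) (a : Fin 3 → ℤ) (l : ∀ k : Fin 3, Fin (n k) → ℤ × ℤ)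
    (m : ∀ k : Fin 3, Fin (n k) → ℕ) (hn : 0 < n 0 + n 1 + n 2) (ha : ∀ k, a k ≠ 0)
    (hl0 : ∀ k i, l k i ≠ 0)
    (hl : ∀ k i k' j, (⟨k, i⟩ : Σ k : Fin 3, Fin (n k)) ≠ ⟨k', j⟩ →
      (l k i).1 * (l k' j).2 ≠ (l k' j).1 * (l k i).2)
    (hm : ∀ k i, 1 ≤ m k i) (hev : ∀ k, Even (∑ i, m k i))
    (hodd : ∀ k i, Odd (m k i) ∨ IsSquare (κ a l m k i))
    (hF : ∀ u v : ℤ, F a l m 0 u v - F a l m 1 u v = F a l m 2 u v) :
    (∀ q : ℕ, 1 ≤ q → ∃ K : ℝ, ∀ X : ℕ, 1 ≤ X →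
      Mom a l m q X ≤ K * ((X : ℝ) ^ 2 * (1 + Real.log X) ^ grow a l m q)) ∧
    (∀ s ε : ℝ, 0 < s → 0 < ε → ∃ X₀ : ℕ, ∀ X : ℕ, X₀ ≤ X →
      (X : ℝ) ^ 2 * (Real.log X) ^ (grow a l m s - ε) ≤ Mom a l m s X) ∧
    (∀ q : ℕ, 1 ≤ q → (Bounded a l m q ↔ grow a l m q = 0)) ∧
    (Bounded a l m 1 ↔ ∀ k, 2 * n k + sp a l m k ≤ n 0 + n 1 + n 2) ∧
    (Bounded a l m 2 ↔ n 0 = n 1 ∧ n 1 = n 2 ∧ ∀ k, sp a l m k = 0) ∧
    (∀ s : ℝ, 2 < s → ¬ Bounded a l m s) ∧
    ∀ q : ℕ, 1 ≤ q → ∃ K : ℝ, ∀ X : ℕ, 1 ≤ X → ∀ r : ℕ,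
      (High a l m r X : ℝ) * 2 ^ (q * r) ≤
        K * ((X : ℝ) ^ 2 * (1 + Real.log X) ^ grow a l m q) := by
  have hpw := Pool.Agent.N861.EC.t_PW Pool.Agent.N870.EC.selge
  have hconv := Pool.Agent.N547.H.t_CONV
  have hfam := Pool.Agent.N82.H.t_FAMK Pool.Agent.N701.H.t_AVGK
  have hmak : Pool.Agent.N870.H.S_MAKH := Pool.Agent.N870.H.t_MAKH
  have hlow : Pool.Agent.N870.H.S_LOWH :=
    Pool.Agent.N574.H.t_LOWH Pool.Agent.N80.H.t_CNTF Pool.Agent.N935.H.t_MERK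
  have h : Pool.Agent.N870.H.HF a l m := ⟨hn, ha, hl0, hl, hm, hev, hodd, hF⟩
  have hM : ∀ (s : ℝ) (X : ℕ), Mom a l m s X = Pool.Agent.N870.H.Mo a l m s X := fun s X => rfl
  have hg : ∀ s : ℝ, grow a l m s = Pool.Agent.N870.H.gH a l m s := fun s => rfl
  have hB : ∀ s : ℝ, Bounded a l m s ↔ Pool.Agent.N870.H.Bd a l m s := fun s => Iff.rfl
  have hs : ∀ k, sp a l m k = Pool.Agent.N870.H.sH a l m k := fun k => rfl
  have hup : ∀ q : ℕ, 1 ≤ q → ∃ K : ℝ, ∀ X : ℕ, 1 ≤ X →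
      Mom a l m q X ≤ K * ((X : ℝ) ^ 2 * (1 + Real.log X) ^ grow a l m q) := by
    intro q hq
    simp only [hM, hg]
    exact Pool.Agent.N870.H.up_gH h hconv hmak hfam hq
  refine ⟨hup, fun s ε h1 h2 => ?_, fun q hq => ?_, ?_, ?_, fun s h1 => ?_, fun q hq => ?_⟩
  · simp only [hM, hg]
    exact Pool.Agent.N870.H.low_gH hlow hpw h s ε h1 h2
  · rw [hB, hg]
    exact Pool.Agent.N870.H.Bd_iff hlow hpw h hconv hmak hfam hq
  · rw [hB]
    simp only [hs]
    exact Pool.Agent.N870.H.Bd_one hlow hpw h hconv hmak hfam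
  · rw [hB]
    simp only [hs]
    exact Pool.Agent.N870.H.Bd_two hlow hpw h hconv hmak hfam
  · rw [hB]
    exact Pool.Agent.N870.H.no_Bd hlow hpw h h1
  · obtain ⟨K, hK⟩ := hup q hq
    exact ⟨K, fun X hX r => (high_le a l m hF q r X).trans (hK X hX)⟩

end Pool.Agent.Results.MP_6073f3_nt.MomentsOverProjectiveLine
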