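import Pool.Agent.N739.EL.Form
import Pool.Agent.N739.EL.Par
import Pool.Agent.N739.EL.One2
import Pool.Agent.Results.MP_3283e1_nt.MeanSquareLaw

/-!
# Minimal analytic rank and upper bounds for the number of points on one sparse sequence of intervals

Let `E : y² = x³ + a x + b` be an elliptic curve over `ℚ`, `a, b ∈ ℤ`, let `F` be the entire continuation of its
incomplete `L`-series, `f` its newform, `w` its root number, `m = ord_{s=1} F` and

`T(x) = (1 / log x) ∑_{p ≤ x, p ∤ 2Δ} log p · log (N_p / p)`,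

`N_p` the number of points modulo `p` with the point at infinity: the logarithm of the product of Birch and
Swinnerton-Dyer with the weights `log p / log x`. We prove for every curve, without any hypothesis:

1. (minimal rank) For every `ρ` with `1 ≤ ρ < 2` the following are equivalent: the Riemann hypothesis holds for `E` and
   `E` has the smallest analytic rank allowed by its root number (`m = 0` if `w = 1`, `m = 1` if `w = -1`); for all
   `C > 1`, `ε > 0` the mean of `max (T(x) - ρ, 0)` over `[X, CX]` is at most `ε` for arbitrarily large `X`.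
2. (every interval sees every zero from above) If `F(s) = 0` with `Re s > 1` then there is `C > 1` such that for all
   real `ρ` and all `ε > 0` the mean of `max (T(x) - ρ, 0)` over `[X, CX]` is at least `X^(Re s - 1 - ε)` for ALL
   large `X`.
3. (upper bounds for the order) For real `ρ` the Riemann hypothesis for `E` holds with `ord_{s=1} F ≤ ρ` if and only if
   for all `C > 1` the mean of `max (T(x) - ρ, 0)` over `[X, CX]` tends to `0`, and if and only if for all `C > 1` and
   `ε > 0` this mean is at most `ε` for arbitrarily large `X`.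
4. (the order) The Riemann hypothesis for `E` holds with `ord_{s=1} F = ρ` if and only if the mean of `|T(x) - ρ|` over
   `[X, CX]` tends to `0` for all `C > 1`, and if and only if this mean (with `C = 2`) is at most `ε` for
   arbitrarily large `X`, for every `ε > 0`.
5. (the value at the central point) The Riemann hypothesis for `E` together with `L(E,1) ≠ 0` holds if and only if
   for all `C > 1`, `ε > 0` the mean of `max (T(x) - 1/2, 0)` over `[X, CX]` is at most `ε` for arbitrarily large `X`.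
6. With `ρ = rank E(ℚ)` in 3: an upper bound for the numbers `N_p` on one arbitrarily sparse sequence of intervals is
   equivalent to the Riemann hypothesis for `E` and the inequality analytic rank `≤` rank.

The one-sided theorem of Landau needs the bound for all `x`; the starting file `EveryWindow` needs intervals
`[X, X^(1+δ)]`. Here `C` is a constant.

Proof of 2. Let `D(u) = ∑_{p ≤ e^u} log p · log (N_p/p)`, a sum over the zeros `ρ'` of `F(1+s)` of `e^(ρ'u)/ρ'`. For a
zero `ρ' = β + iγ` with `γ ≠ 0` the POSITIVE operator `f(u) + e^(-βπ/|γ|) f(u + π/|γ|)` annihilates `e^(ρ'u)`. By the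
density theorem of Selberg's strength for newforms the sum of all the shifts `π/|γ|` over the zeros with `β > θ` is
finite for every `θ > 0`. The composition of these operators annihilates the contribution of all zeros off the
real line, the real zeros contribute a positive amount, so the negative part of `D` is dominated by the positive part,
and the total size of `D` in the window is known from the two-sided theorem (`MP_577099_nt.OneDyadicSequence`).
-/

set_option autoImplicit false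

namespace Pool.Agent.Results.MP_6073f3_nt.OneSidedWindows

open Pool.Agent.W263.BSD Filter Topology Classical MeasureTheory Set
open CongruenceSubgroup UpperHalfPlane
open scoped MatrixGroups

/-- `T(x) = (1 / log x) ∑ log p · log ((N_p + 1) / p)` over the primes `p ≤ x`, `p ∤ 2Δ` (`N_p` affine points). -/
noncomputable def weightedLog (a b : ℤ) (x : ℝ) : ℝ :=
  (∑ p ∈ (Finset.range (⌊x⌋₊ + 1)).filter (GoodPrime a b),
    Real.log p * Real.log (((pointCount a b p : ℝ) + 1) / p)) / Real.log x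

/-- `(1/X) ∫_X^{CX} max (T(x) - ρ, 0) dx`, that is `C - 1` times the mean of `max (T(x) - ρ, 0)` over `[X, CX]`. -/
noncomputable def upperMean (a b : ℤ) (ρ C X : ℝ) : ℝ :=
  1 / X * ∫ x in X..(C * X), max (weightedLog a b x - ρ) 0

/-- `(1/X) ∫_X^{CX} |T(x) - ρ| dx`. -/
noncomputable def absMean (a b : ℤ) (ρ C X : ℝ) : ℝ :=
  1 / X * ∫ x in X..(C * X), |weightedLog a b x - ρ|

/-- The `n`-th Fourier coefficient of `f`. -/
noncomputable def coef {N : ℕ} (f : CuspForm (Gamma0 N : Subgroup (GL (Fin 2) ℝ)) 2) (n : ℕ) : ℂ :=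
  (qExpansion 1 f).coeff n

/-- `f ∈ S_2(Γ₀(N))` is the newform of the elliptic curve `E : y² = x³ + a x + b` of conductor `N` and root
number `w`: the Fourier coefficients `c(n)` of `f` are real with `c(1) = 1`, they satisfy the Hecke relations
`c(mn) = c(m) c(n)` for coprime `m`, `n` and `c(p^(j+2)) = c(p) c(p^(j+1)) - p c(p^j)` (without the last
term if `p ∣ N`), `c(p) = a_p = p - N_p` (`N_p` affine points) for all primes `p ∤ 2Δ`, `|c(p)| ≤ 2 √p` for
all `p ∤ N` (Hasse), `c(p) = 0, 1, -1` for `p ∣ N` and `f(-1/(Nτ)) = -w N τ² f(τ)`. By the modularity theorem it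
exists for every `E`. -/
structure IsNewformOf (a b : ℤ) (N : ℕ) (f : CuspForm (Gamma0 N : Subgroup (GL (Fin 2) ℝ)) 2) (w : ℝ) :
    Prop where
  one : coef f 1 = 1
  real : ∀ n, (coef f n).im = 0
  mul : ∀ m n : ℕ, Nat.Coprime m n → coef f (m * n) = coef f m * coef f n
  pow : ∀ p j : ℕ, p.Prime → coef f (p ^ (j + 2)) = coef f p * coef f (p ^ (j + 1)) -
      (if p ∣ N then 0 else (p : ℂ) * coef f (p ^ j))
  points : ∀ p : ℕ, GoodPrime a b p → coef f p = (p : ℂ) - (pointCount a b p : ℂ)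
  good : ∀ p : ℕ, p.Prime → ¬ p ∣ N → ‖coef f p‖ ≤ 2 * Real.sqrt p
  bad : ∀ p : ℕ, p.Prime → p ∣ N → coef f p = 0 ∨ coef f p = 1 ∨ coef f p = -1
  sign : w = 1 ∨ w = -1
  fricke : ∀ τ τ' : ℍ, (τ' : ℂ) * ((N : ℂ) * (τ : ℂ)) = -1 →
    f τ' = -(w : ℂ) * (N : ℂ) * (τ : ℂ) ^ 2 * f τ

/-- The group of rational points of `y² = x³ + a x + b`. -/
abbrev Points (a b : ℤ) : Type :=
  WeierstrassCurve.Affine.Point
    (WeierstrassCurve.toAffine
      ({ a₁ := 0, a₂ := 0, a₃ := 0, a₄ := (a : ℚ), a₆ := (b : ℚ) } : WeierstrassCurve ℚ))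

/-- `F` has no zeros with `Re s > 1`. -/
def NoZeros (F : ℂ → ℂ) : Prop := ∀ s : ℂ, 1 < s.re → F s ≠ 0

/-- **Main theorem.** -/
theorem result (a b : ℤ) (hΔ : 4 * a ^ 3 + 27 * b ^ 2 ≠ 0) (F : ℂ → ℂ) (hF : IsLSeries a b F)
    (N : ℕ) [NeZero N] (f : CuspForm (Gamma0 N : Subgroup (GL (Fin 2) ℝ)) 2) (w : ℝ)
    (hf : IsNewformOf a b N f w) :
    (∀ ρ : ℝ, 1 ≤ ρ → ρ < 2 →
      ((NoZeros F ∧ ((w = 1 ∧ analyticOrderAt F 1 = 0) ∨ (w = -1 ∧ analyticOrderAt F 1 = 1))) ↔
        ∀ C : ℝ, 1 < C → ∀ ε : ℝ, 0 < ε → ∃ᶠ X : ℝ in atTop, upperMean a b ρ C X ≤ ε)) ∧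
    (∀ s : ℂ, F s = 0 → 1 < s.re → ∃ C : ℝ, 1 < C ∧ ∀ ρ ε : ℝ, 0 < ε →
      ∀ᶠ X : ℝ in atTop, X ^ (s.re - 1 - ε) ≤ upperMean a b ρ C X) ∧
    (∀ ρ : ℝ, List.TFAE [
      NoZeros F ∧ ∃ m : ℕ, analyticOrderAt F 1 = m ∧ (m : ℝ) ≤ ρ,
      ∀ C : ℝ, 1 < C → Tendsto (fun X : ℝ => upperMean a b ρ C X) atTop (𝓝 0),
      ∀ C : ℝ, 1 < C → ∀ ε : ℝ, 0 < ε → ∃ᶠ X : ℝ in atTop, upperMean a b ρ C X ≤ ε]) ∧
    (∀ ρ : ℝ, List.TFAE [
      NoZeros F ∧ ∃ m : ℕ, analyticOrderAt F 1 = m ∧ (m : ℝ) = ρ,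
      ∀ C : ℝ, 1 < C → Tendsto (fun X : ℝ => absMean a b ρ C X) atTop (𝓝 0),
      ∀ ε : ℝ, 0 < ε → ∃ᶠ X : ℝ in atTop, absMean a b ρ 2 X ≤ ε]) ∧
    ((NoZeros F ∧ F 1 ≠ 0) ↔
      ∀ C : ℝ, 1 < C → ∀ ε : ℝ, 0 < ε → ∃ᶠ X : ℝ in atTop, upperMean a b (1 / 2) C X ≤ ε) ∧
    ((NoZeros F ∧ analyticOrderAt F 1 ≤ Module.finrank ℤ (Points a b)) ↔
      ∀ C : ℝ, 1 < C → ∀ ε : ℝ, 0 < ε → ∃ᶠ X : ℝ in atTop,
        upperMean a b (Module.finrank ℤ (Points a b)) C X ≤ ε) := by
  have hH : Pool.Agent.TH941.Hecke f :=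
    { one := hf.one
      real := hf.real
      mul := hf.mul
      pow := hf.pow
      good := hf.good
      bad := fun p hp hpN => by
        have h2 : ‖coef f p‖ ≤ 1 := by
          rcases hf.bad p hp hpN with h | h | h <;> simp [h]
        exact h2 }
  have hB : Pool.Agent.TH941.Belongs a b f := fun p hp => hf.points p hp
  have hf' : Pool.Agent.W169.HF.IsForm N f w :=
    { one := hf.one
      real := hf.real
      mul := hf.mul
      pow := hf.pow
      sign := hf.sign
      fricke := hf.fricke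
      good := hf.good
      bad := fun p hp hpN => by
        have h1 : (1 : ℝ) ≤ Real.sqrt p := by
          rw [Real.one_le_sqrt]
          exact_mod_cast hp.one_le
        have h2 : ‖coef f p‖ ≤ 1 := by
          rcases hf.bad p hp hpN with h | h | h <;> simp [h]
        exact h2.trans h1 }
  have hgr := Pool.Agent.N739.EL.growth_nf hΔ hF hH hB
  have hdens := Pool.Agent.N739.EL.dens_form hΔ hF hH hB hf'
  have hrs : Tendsto (rsSum a b) atTop (𝓝 0) := hH.rsSum_tendsto hΔ hB
  obtain ⟨C₀, κ₀, hg⟩ := Pool.Agent.TH270.MS.EQ.growth_F hΔ hF hH hB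
  obtain ⟨c1, c2, c3⟩ := Pool.Agent.N739.EL.crit_one hΔ hF hgr hdens hrs (by norm_num : (0 : ℝ) < 1 / 8) hg
  have d2 : ∀ ρ : ℝ, List.TFAE [
      NoZeros F ∧ ∃ m : ℕ, analyticOrderAt F 1 = m ∧ (m : ℝ) ≤ ρ,
      ∀ C : ℝ, 1 < C → Tendsto (fun X : ℝ => upperMean a b ρ C X) atTop (𝓝 0),
      ∀ C : ℝ, 1 < C → ∀ ε : ℝ, 0 < ε → ∃ᶠ X : ℝ in atTop, upperMean a b ρ C X ≤ ε] := c2
  refine ⟨?_, c1, c2, c3, ?_, ?_⟩
  · intro ρ hρ1 hρ2
    have h1 := (d2 ρ).out 0 2
    rw [← h1]
    refine and_congr_right fun _ => ⟨?_, ?_⟩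
    · rintro (⟨_, h⟩ | ⟨_, h⟩)
      · exact ⟨0, by rw [h]; rfl, by push_cast; linarith⟩
      · exact ⟨1, by rw [h]; rfl, by push_cast; linarith⟩
    · rintro ⟨m, hm, hm2⟩
      have h2 := Pool.Agent.N739.EL.parity hΔ hF hH hB hf' hm
      have h3 : m < 2 := by
        have : (m : ℝ) < 2 := lt_of_le_of_lt hm2 hρ2
        exact_mod_cast this
      interval_cases m
      · left
        exact ⟨by rw [h2]; norm_num, by rw [hm]; rfl⟩
      · right
        exact ⟨by rw [h2]; norm_num, by rw [hm]; rfl⟩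
  · have h1 := (d2 (1 / 2)).out 0 2
    rw [← h1]
    refine and_congr_right fun _ => ?_
    have ha : AnalyticAt ℂ F 1 := hF.1.analyticAt 1
    constructor
    · intro h0
      refine ⟨0, ?_, by norm_num⟩
      rw [ha.analyticOrderAt_eq_zero.2 h0]
      rfl
    · rintro ⟨m, hm, hm2⟩
      have hm0 : m = 0 := by
        by_contra hcon
        have : (1 : ℝ) ≤ m := by exact_mod_cast Nat.one_le_iff_ne_zero.2 hcon
        linarith
      rw [hm0] at hm
      exact ha.analyticOrderAt_eq_zero.1 (by rw [hm]; rfl)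
  · have h1 := (d2 (Module.finrank ℤ (Points a b) : ℝ)).out 0 2
    rw [← h1]
    refine and_congr_right fun _ => ⟨fun h => ?_, ?_⟩
    · obtain ⟨m, hm⟩ := order_finite hF
      refine ⟨m, hm, ?_⟩
      rw [hm] at h
      exact_mod_cast h
    · rintro ⟨m, hm, hm2⟩
      rw [hm]
      exact_mod_cast hm2

end Pool.Agent.Results.MP_6073f3_nt.OneSidedWindows
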