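import Pool.Agent.N666.TB.Art2
import Pool.Agent.N666.TM.Pow
import Pool.Agent.N666.TB.Law
import Pool.Agent.N397.AV.RepF
import Pool.Agent.N397.AV.ChebF

/-!
# Artin twists of thin sequences of elliptic curves at the central point

Let `F/ℚ` be a finite Galois extension, `ρ` a complex representation of `Gal(F/ℚ)` with character `χ`, `S` a finite set of
primes and `σ_p`, `p ∉ S`, Frobenius elements (for the trivial representation everything is about the curve itself). For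
`E : y² = x³ + A x + B` let

`P_ρ(E; x) = ∏_{p ≤ x} |det(1 - a_p p⁻¹ ρ(σ_p) + p⁻¹ ρ(σ_p)²)|`, `p ∉ S`, `p ∤ 6Δ`,

the inverse of the Euler product of `L(E, ρ, s)` at the central point `s = 1`; for `ρ = 1` this is `∏ N_p / p`, the product
of Birch and Swinnerton-Dyer, which should be `(log x)^r` for a curve of rank `r`. Let the curves be the thin sequence
`E_m : y² = x³ + ⌊P(m)⌋ x + ⌊Q(m)⌋`, where `P`, `Q` are finite sums of real powers (for instance `m^√2`, `m^√3`), and `m`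
runs through the integers, or the primes, of `(N, 2N]`.

A. For all but `C l^{-A} #` of the `m`, for ALL `x ≥ 16` with `x^k ≤ N`,
`|log P_ρ(E_m; x) - c(x)| ≤ l (log log x)^{1/2} (1 + log log log x)^ε`, `c(x) = ∑_{p ≤ x} Re χ(σ_p²) / (2p)`, and
`c(x) / log log x → e / 2`, `e` the mean of `Re χ(g²)`.

B. If `x(N) = N^{o(1)}` tends to infinity, `(log P_ρ(E_m; x(N)) - c(x(N))) / √(v log log x(N))` tends in law to the standard
normal law, `v` the mean of `(Re χ(g))²`.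

C. In the time `log log x` the process `log P_ρ(E_m; x) - c(x)` tends to Brownian motion (joint laws at finitely many times,
in the form of characteristic functions).

D. For irreducible `ρ`: `(e, v) = (1, 1)`, `(-1, 1)`, `(0, 1/2)` if `ρ` is orthogonal, symplectic, not self-dual.

Proof. The vectors `(⌊P(m)⌋, ⌊Q(m)⌋)` are equidistributed modulo `q ≤ N^κ` with a power saving, by exponential sums over
integers and primes (`Pool.Agent.Y961.JR` of the starting library). So the moments of sums of local variables along the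
sequence are those of independent variables. The mean and the second moment of the local variables are those of helpers 278
and 397 (`Pool.Agent.X278.AV`, `Pool.Agent.N397.AV`), and Chebotarev's theorem is that of `Pool.Agent.W401`.
-/

set_option autoImplicit false

open Filter Topology Matrix NumberField ProbabilityTheory

namespace Pool.Agent.Results.MP_6073f3_nt.ThinTwistProducts

/-- `c` is the largest exponent of the generalised polynomial `∑ a_x t ^ x`; it is positive and not an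
integer and has a positive coefficient. -/
def Admissible (P : Finset ℝ) (a : ℝ → ℝ) (c : ℝ) : Prop :=
  c ∈ P ∧ (∀ x ∈ P, x ≤ c) ∧ 0 < c ∧ (∀ m : ℕ, c ≠ m) ∧ 0 < a c

/-- The integer part of the value at `m` of the generalised polynomial `∑ a_x t ^ x`, `x ∈ P`. -/
noncomputable def floorAt (P : Finset ℝ) (a : ℝ → ℝ) (m : ℕ) : ℤ := ⌊∑ x ∈ P, a x * (m : ℝ) ^ x⌋

/-- The integers in `(N, 2N]`. -/
def integers (N : ℕ) : Finset ℕ := Finset.Ioc N (2 * N)

/-- The primes in `(N, 2N]`. -/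
def primes (N : ℕ) : Finset ℕ := (Finset.Ioc N (2 * N)).filter Nat.Prime

/-- The number of points of `y² = x³ + A x + B` modulo `p`, with the point at infinity. -/
noncomputable def points (A B : ℤ) (p : ℕ) : ℕ :=
  Nat.card {P : ZMod p × ZMod p // P.2 ^ 2 = P.1 ^ 3 + (A : ZMod p) * P.1 + (B : ZMod p)} + 1

section

variable {F : Type} [Field F] [NumberField F] {n : ℕ}

/-- `g` is a Frobenius element at `p`: there is a maximal ideal `Q` of the ring of integers which contains `p` such that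
`g x ≡ x ^ p` modulo `Q` for all integers `x` of `F`. -/
def IsFrobenius (p : ℕ) (g : Gal(F/ℚ)) : Prop :=
  ∃ Q : Ideal (𝓞 F), Q.IsMaximal ∧ (p : 𝓞 F) ∈ Q ∧ ∀ x : 𝓞 F, g • x - x ^ p ∈ Q

/-- `det(1 - a_p p^{-s} R + p^{1-2s} R²)`, `a_p = p + 1 - N_p`: the inverse Euler factor, for `R = ρ(σ_p)`. -/
noncomputable def localFactor (A B : ℤ) (R : Matrix (Fin n) (Fin n) ℂ) (p : ℕ) (s : ℂ) : ℂ :=
  (1 - (((p : ℂ) + 1 - points A B p) * (p : ℂ) ^ (-s)) • R + ((p : ℂ) ^ (1 - 2 * s)) • R ^ 2).det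

/-- The primes which are left out: those in `S`, and those which divide `6 (4A³ + 27B²)`. -/
def IsBad (S : Finset ℕ) (A B : ℤ) (p : ℕ) : Prop := p ∈ S ∨ (p : ℤ) ∣ 6 * (4 * A ^ 3 + 27 * B ^ 2)

/-- The absolute value of the inverse Euler factor at `s = 1`; `1` if `p` is left out. -/
noncomputable def ratio (S : Finset ℕ) (σ : ℕ → Gal(F/ℚ)) (ρ : Gal(F/ℚ) →* Matrix (Fin n) (Fin n) ℂ) (A B : ℤ)
    (p : ℕ) : ℝ :=
  open Classical in if IsBad S A B p then 1 else ‖localFactor A B (ρ (σ p)) p 1‖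

/-- The product of the ratios over the primes up to `x`. -/
noncomputable def product (S : Finset ℕ) (σ : ℕ → Gal(F/ℚ)) (ρ : Gal(F/ℚ) →* Matrix (Fin n) (Fin n) ℂ) (A B : ℤ)
    (x : ℕ) : ℝ := ∏ p ∈ (Finset.Icc 1 x).filter Nat.Prime, ratio S σ ρ A B p

/-- The centre of the law: the sum of `Re χ(σ_p²) / (2p)` over the primes `p ≤ x` which are not in `S`. -/
noncomputable def center (S : Finset ℕ) (σ : ℕ → Gal(F/ℚ)) (ρ : Gal(F/ℚ) →* Matrix (Fin n) (Fin n) ℂ) (x : ℕ) : ℝ :=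
  ∑ p ∈ (Finset.Icc 1 x).filter (fun p => p.Prime ∧ p ∉ S), ((ρ (σ p ^ 2)).trace).re / (2 * p)

/-- For some `x` with `16 ≤ x` and `x ^ k ≤ N` the logarithm of the product over `p ≤ x` differs from the centre by more
than `l (log log x)^{1/2} (1 + log log log x)^ε`. -/
def Exceptional (S : Finset ℕ) (σ : ℕ → Gal(F/ℚ)) (ρ : Gal(F/ℚ) →* Matrix (Fin n) (Fin n) ℂ) (A B : ℤ)
    (ε l : ℝ) (k N : ℕ) : Prop :=
  ∃ x : ℕ, 16 ≤ x ∧ x ^ k ≤ N ∧
    l * Real.log (Real.log x) ^ (1 / 2 : ℝ) * (1 + Real.log (Real.log (Real.log x))) ^ ε <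
      |Real.log (product S σ ρ A B x) - center S σ ρ x|

/-- `ε`, the mean of `Re χ(g²)`; for irreducible `ρ` the Frobenius-Schur indicator. -/
noncomputable def schur (ρ : Gal(F/ℚ) →* Matrix (Fin n) (Fin n) ℂ) : ℝ :=
  (∑ g : Gal(F/ℚ), ((ρ (g ^ 2)).trace).re) / Nat.card Gal(F/ℚ)

/-- `v`, the mean of `(Re χ(g))²`. -/
noncomputable def second (ρ : Gal(F/ℚ) →* Matrix (Fin n) (Fin n) ℂ) : ℝ :=
  (∑ g : Gal(F/ℚ), ((ρ g).trace).re ^ 2) / Nat.card Gal(F/ℚ)

/-- The distribution function of the standard normal law. -/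
noncomputable def normal (z : ℝ) : ℝ := (gaussianReal 0 1 (Set.Iic z)).toReal

/-- `ρ` is irreducible (Schur's criterion): only the scalar matrices commute with all `ρ(g)`. -/
def IsIrreducible (ρ : Gal(F/ℚ) →* Matrix (Fin n) (Fin n) ℂ) : Prop :=
  0 < n ∧ ∀ Y : Matrix (Fin n) (Fin n) ℂ, (∀ g, ρ g * Y = Y * ρ g) → ∃ c : ℂ, Y = c • (1 : Matrix (Fin n) (Fin n) ℂ)

/-- `Y` intertwines the dual of `ρ` and `ρ`, an invariant bilinear form on the dual. -/
def IsInvariant (ρ : Gal(F/ℚ) →* Matrix (Fin n) (Fin n) ℂ) (Y : Matrix (Fin n) (Fin n) ℂ) : Prop :=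
  ∀ g, ρ g * Y * (ρ g)ᵀ = Y

end

open Pool.Agent.X278.AV Pool.Agent.N397.AV

section

variable {F : Type} [Field F] [NumberField F] {n : ℕ} {S : Finset ℕ} {σ : ℕ → Gal(F/ℚ)}
  {ρ : Gal(F/ℚ) →* Matrix (Fin n) (Fin n) ℂ}

theorem good_iff (A B : ℤ) (p : ℕ) :
    (p : ℤ) ∣ 6 * (4 * A ^ 3 + 27 * B ^ 2) ↔ (6 : ZMod p) * (4 * (A : ZMod p) ^ 3 + 27 * (B : ZMod p) ^ 2) = 0 := by
  rw [← ZMod.intCast_zmod_eq_zero_iff_dvd]
  push_cast
  rfl

/-- the eigenvalues -/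
theorem eig_all (σ : ℕ → Gal(F/ℚ)) (ρ : Gal(F/ℚ) →* Matrix (Fin n) (Fin n) ℂ) :
    ∃ μ₀ : ℕ → Fin n → ℂ, (∀ p j, ‖μ₀ p j‖ = 1) ∧ (∀ p, (ρ (σ p)).trace = ∑ j, μ₀ p j) ∧
      (∀ p, (ρ (σ p ^ 2)).trace = ∑ j, μ₀ p j ^ 2) ∧
      ∀ (p : ℕ) (x y : ℂ), (1 - (x + y) • ρ (σ p) + (x * y) • ρ (σ p) ^ 2).det =
        ∏ j, ((1 - x * μ₀ p j) * (1 - y * μ₀ p j)) := by
  have hk : Nat.card Gal(F/ℚ) ≠ 0 := Nat.card_pos.ne'
  have hfin : ∀ p : ℕ, ρ (σ p) ^ Nat.card Gal(F/ℚ) = 1 := fun p => by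
    rw [← map_pow, pow_card_eq_one', map_one]
  choose μ₀ h1 h2 h3 h4 using fun p : ℕ => eigen hk (hfin p)
  refine ⟨μ₀, h1, fun p => trace_eig fun z _ => h2 p z, fun p => ?_, h4⟩
  rw [map_pow]
  exact trace_eig fun z _ => h3 p z

open Classical in
/-- the eigenvalues, zero for the primes in `S` -/
noncomputable def mu (S : Finset ℕ) (μ₀ : ℕ → Fin n → ℂ) (p : Nat.Primes) (j : Fin n) : ℂ :=
  if (p : ℕ) ∈ S then 0 else μ₀ p j

theorem mu_le {μ₀ : ℕ → Fin n → ℂ} (h : ∀ p j, ‖μ₀ p j‖ = 1) (p : Nat.Primes) (j : Fin n) : ‖mu S μ₀ p j‖ ≤ 1 := by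
  unfold mu
  split_ifs
  · rw [norm_zero]; exact zero_le_one
  · exact (h _ _).le

theorem local_eq {A B : ℤ} {p : Nat.Primes} (hg : GoodQ A B p) (hS : (p : ℕ) ∉ S) {μ₀ : ℕ → Fin n → ℂ}
    (h4 : ∀ (p : ℕ) (x y : ℂ), (1 - (x + y) • ρ (σ p) + (x * y) • ρ (σ p) ^ 2).det =
        ∏ j, ((1 - x * μ₀ p j) * (1 - y * μ₀ p j))) (s : ℂ) :
    localFactor A B (ρ (σ p)) p s = ∏ j, ((1 - (qal A B p 0 * ((p : ℕ) : ℂ) ^ (-s)) * mu S μ₀ p j) *
      (1 - (qal A B p 1 * ((p : ℕ) : ℂ) ^ (-s)) * mu S μ₀ p j)) := by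
  obtain ⟨k1, k2⟩ := qal_add_mul hg s
  have hmu : ∀ j, mu S μ₀ p j = μ₀ p j := fun j => if_neg hS
  simp only [hmu]
  have e : ((p : ℕ) : ℂ) + 1 - (points A B p : ℂ) = ((p : ℕ) : ℂ) - ptsQ A B p := by
    unfold points ptsQ
    push_cast
    ring
  rw [← h4 p, k1, k2]
  unfold localFactor
  rw [e]

theorem log_ratio {μ₀ : ℕ → Fin n → ℂ} (h1 : ∀ p j, ‖μ₀ p j‖ = 1)
    (h4 : ∀ (p : ℕ) (x y : ℂ), (1 - (x + y) • ρ (σ p) + (x * y) • ρ (σ p) ^ 2).det =
        ∏ j, ((1 - x * μ₀ p j) * (1 - y * μ₀ p j))) (A B : ℤ) (p : Nat.Primes) :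
    0 < ratio S σ ρ A B p ∧ Real.log (ratio S σ ρ A B p) = fA (mu S μ₀) p (red (p : ℕ) ![A, B]) := by
  unfold ratio
  by_cases hb : IsBad S A B p
  · rw [if_pos hb, Real.log_one]
    refine ⟨one_pos, ?_⟩
    rcases hb with hS | hd
    · exact (fA_zero (fun j => if_pos hS) _).symm
    · exact (fA_bad (fun h => h ((good_iff _ _ _).1 hd)) _).symm
  · rw [if_neg hb]
    have hS : (p : ℕ) ∉ S := fun h => hb (Or.inl h)
    have hg : GoodQ A B p := fun h => hb (Or.inr ((good_iff _ _ _).2 h))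
    rw [local_eq hg hS h4 1, fA_eq hg (mu_le h1)]
    refine ⟨norm_pos_iff.2 (Finset.prod_ne_zero_iff.2 fun j _ => ?_), rfl⟩
    exact mul_ne_zero (pair_ne hg (mu_le h1 p j) 0) (pair_ne hg (mu_le h1 p j) 1)


/-- the centred logarithm of the product -/
theorem DA_eq {μ₀ : ℕ → Fin n → ℂ} (h1 : ∀ p j, ‖μ₀ p j‖ = 1)
    (h3 : ∀ p, (ρ (σ p ^ 2)).trace = ∑ j, μ₀ p j ^ 2)
    (h4 : ∀ (p : ℕ) (x y : ℂ), (1 - (x + y) • ρ (σ p) + (x * y) • ρ (σ p) ^ 2).det =
        ∏ j, ((1 - x * μ₀ p j) * (1 - y * μ₀ p j))) (A B : ℤ) (x : ℕ) (w : Fin 2 → ℤ) (hw : w = ![A, B]) :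
    0 < product S σ ρ A B x ∧
    Pool.Agent.N666.TB.DA (mu S μ₀) x w = Real.log (product S σ ρ A B x) - center S σ ρ x := by
  classical
  have hpos : ∀ p ∈ (Finset.Icc 1 x).filter Nat.Prime, 0 < ratio S σ ρ A B p := by
    intro p hp
    exact (log_ratio h1 h4 A B ⟨p, (Finset.mem_filter.1 hp).2⟩).1
  refine ⟨Finset.prod_pos hpos, ?_⟩
  unfold Pool.Agent.N666.TB.DA product
  rw [Real.log_prod (fun p hp => (hpos p hp).ne')]
  congr 1
  · unfold Pool.Agent.N430.BP.Pr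
    refine Finset.sum_congr rfl fun p hp => ?_
    have hpp := (Finset.mem_filter.1 hp).2
    rw [(log_ratio (S := S) h1 h4 A B ⟨p, hpp⟩).2]
    unfold Pool.Agent.N666.TB.gp
    rw [dif_pos hpp, hw]
    rfl
  · unfold Pool.Agent.N430.BP.Pr center
    rw [← Finset.filter_filter, Finset.sum_filter (p := fun p => p ∉ S)]
    refine Finset.sum_congr rfl fun p hp => ?_
    have hpp := (Finset.mem_filter.1 hp).2
    unfold Pool.Agent.N666.TB.kap
    rw [dif_pos hpp]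
    by_cases hS : p ∈ S
    · rw [if_neg (not_not.2 hS)]
      have : ∀ j, mu S μ₀ ⟨p, hpp⟩ j = 0 := fun j => if_pos hS
      simp [this]
    · rw [if_pos hS, h3, Complex.re_sum]
      congr 1
      refine Finset.sum_congr rfl fun j _ => ?_
      have : mu S μ₀ ⟨p, hpp⟩ j = μ₀ p j := if_neg hS
      rw [this]

theorem trace_conj (ρ : Gal(F/ℚ) →* Matrix (Fin n) (Fin n) ℂ) (g h : Gal(F/ℚ)) :
    (ρ (h⁻¹ * g * h)).trace = (ρ g).trace := by
  rw [map_mul, map_mul, Matrix.trace_mul_cycle, ← map_mul, mul_inv_cancel, map_one, one_mul]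

theorem second_pos (ρ : Gal(F/ℚ) →* Matrix (Fin n) (Fin n) ℂ) (hn : 0 < n) : 0 < second ρ := by
  unfold second
  have hG : (0 : ℝ) < Nat.card Gal(F/ℚ) := by exact_mod_cast Nat.card_pos
  apply div_pos _ hG
  have h1 : ((ρ 1).trace).re ^ 2 ≤ ∑ g : Gal(F/ℚ), ((ρ g).trace).re ^ 2 :=
    Finset.single_le_sum (f := fun g => ((ρ g).trace).re ^ 2) (fun g _ => sq_nonneg _) (Finset.mem_univ 1)
  rw [map_one, Matrix.trace_one, Fintype.card_fin] at h1
  have h2 : (0 : ℝ) < n := by exact_mod_cast hn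
  have h3 : ((n : ℂ)).re = n := Complex.natCast_re n
  rw [h3] at h1
  nlinarith

/-- the values for irreducible representations -/
theorem second_eq {ρ : Gal(F/ℚ) →* Matrix (Fin n) (Fin n) ℂ} (h : Irr ρ) :
    second ρ = (1 + (∑ g : Gal(F/ℚ), (ρ g).trace ^ 2).re / Nat.card Gal(F/ℚ)) / 2 := by
  have hG : (0 : ℝ) < Nat.card Gal(F/ℚ) := by exact_mod_cast Nat.card_pos
  have hk : Nat.card Gal(F/ℚ) ≠ 0 := Nat.card_pos.ne'
  have h1 := norm_mean h
  have h2 : ∀ g : Gal(F/ℚ), (ρ g).trace * (ρ g⁻¹).trace = ((‖(ρ g).trace‖ ^ 2 : ℝ) : ℂ) := by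
    intro g
    have hfin : ρ g ^ Nat.card Gal(F/ℚ) = 1 := by rw [← map_pow, pow_card_eq_one', map_one]
    rw [trace_inv hk hfin (rho_inv ρ g).1, Complex.mul_conj, Complex.normSq_eq_norm_sq]
  simp only [h2] at h1
  have h3 : ∑ g : Gal(F/ℚ), ‖(ρ g).trace‖ ^ 2 = Nat.card Gal(F/ℚ) := by
    rw [Nat.card_eq_fintype_card]
    exact_mod_cast h1
  have h4 : ∀ g : Gal(F/ℚ), ((ρ g).trace).re ^ 2 = (((ρ g).trace ^ 2).re + ‖(ρ g).trace‖ ^ 2) / 2 := by
    intro g
    rw [← Complex.normSq_eq_norm_sq, Complex.normSq_apply, sq (ρ g).trace, Complex.mul_re]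
    ring
  unfold second
  simp only [h4]
  rw [← Finset.sum_div, Finset.sum_add_distrib, h3, ← Complex.re_sum]
  field_simp
  ring

end

/-- **Artin twists of thin sequences of elliptic curves at the central point.** -/
theorem result (F : Type) [Field F] [NumberField F] [IsGalois ℚ F] (n : ℕ)
    (ρ : Gal(F/ℚ) →* Matrix (Fin n) (Fin n) ℂ) (S : Finset ℕ) (σ : ℕ → Gal(F/ℚ))
    (hσ : ∀ p : ℕ, p.Prime → p ∉ S → IsFrobenius p (σ p))
    (P Q : Finset ℝ) (α β : ℝ → ℝ) (γ δ : ℝ) (hP : Admissible P α γ) (hQ : Admissible Q β δ) (hγδ : γ ≠ δ)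
    (T : ℕ → Finset ℕ) (hT : T = integers ∨ T = primes) :
    -- the products are positive; the centre
    (∀ (A B : ℤ) (x : ℕ), 0 < product S σ ρ A B x) ∧
    Tendsto (fun x : ℕ => center S σ ρ x / Real.log (Real.log x)) atTop (𝓝 (schur ρ / 2)) ∧
    -- A. almost all curves, all lengths
    (∀ ε A : ℝ, 0 < ε → 0 < A → ∃ (k : ℕ) (C : ℝ) (N₀ : ℕ), 0 < k ∧ ∀ N : ℕ, N₀ ≤ N → ∀ l : ℝ, 1 ≤ l →
      ({m : ℕ | m ∈ T N ∧ Exceptional S σ ρ (floorAt P α m) (floorAt Q β m) ε l k N}.ncard : ℝ) ≤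
        C * l ^ (-A) * (T N).card) ∧
    -- B. the normal law
    (0 < n → 0 < second ρ ∧ ∀ x : ℕ → ℕ, Tendsto x atTop atTop → (∀ K : ℕ, ∀ᶠ N : ℕ in atTop, x N ^ K ≤ N) →
      ∀ z : ℝ, Tendsto (fun N => ({m : ℕ | m ∈ T N ∧
        Real.log (product S σ ρ (floorAt P α m) (floorAt Q β m) (x N)) - center S σ ρ (x N) ≤
          z * √(second ρ * Real.log (Real.log (x N)))}.ncard : ℝ) / (T N).card) atTop (𝓝 (normal z))) ∧
    -- C. several lengths: the characteristic functions of Brownian motion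
    (∀ x : ℕ → ℕ, Tendsto x atTop atTop → (∀ K : ℕ, ∀ᶠ N : ℕ in atTop, x N ^ K ≤ N) →
      ∀ (κ : Type) [Fintype κ] (y : κ → ℕ → ℕ) (u : κ → ℝ), (∀ j N, y j N ≤ x N) → (∀ j, Tendsto (y j) atTop atTop) →
      (∀ j, Tendsto (fun N => Real.log (Real.log (y j N)) / Real.log (Real.log (x N))) atTop (𝓝 (u j))) →
      ∀ t : κ → ℝ, Tendsto (fun N => (∑ m ∈ T N, Complex.exp (((∑ j, t j *
        (Real.log (product S σ ρ (floorAt P α m) (floorAt Q β m) (y j N)) - center S σ ρ (y j N))) /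
          √(Real.log (Real.log (x N))) : ℝ) * Complex.I)) / (T N).card) atTop
        (𝓝 (Complex.exp (-((second ρ * (∑ i, ∑ j, t i * t j * min (u i) (u j)) / 2 : ℝ) : ℂ))))) ∧
    -- D. the three types of irreducible representations: not self-dual, orthogonal, symplectic
    (IsIrreducible ρ →
      ((∀ Y, IsInvariant ρ Y → Y = 0) → schur ρ = 0 ∧ second ρ = 1 / 2) ∧
      (∀ Y, IsInvariant ρ Y → IsUnit Y.det → Yᵀ = Y → schur ρ = 1 ∧ second ρ = 1) ∧
      (∀ Y, IsInvariant ρ Y → IsUnit Y.det → Yᵀ = -Y → schur ρ = -1 ∧ second ρ = 1)) := by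
  classical
  obtain ⟨μ₀, h1, h2, h3, h4⟩ := eig_all σ ρ
  have hμ := mu_le (S := S) h1
  -- the sequence
  set FF : Fin 2 → Finset ℝ := ![P, Q] with hFF
  set aa : Fin 2 → ℝ → ℝ := ![α, β] with haa
  set cc : Fin 2 → ℝ := ![γ, δ] with hcc
  have hadm : ∀ i, cc i ∈ FF i ∧ (∀ t ∈ FF i, t ≤ cc i) ∧ 0 < cc i ∧ (∀ m : ℕ, cc i ≠ m) ∧
      0 < aa i (cc i) := by
    intro i
    fin_cases i
    · exact hP
    · exact hQ
  have hinj : Function.Injective cc := by
    intro i j hij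
    fin_cases i <;> fin_cases j
    · rfl
    · exact absurd hij hγδ
    · exact absurd hij.symm hγδ
    · rfl
  set w : ℕ → Fin 2 → ℤ := Pool.Agent.N666.TM.fl FF aa with hw
  have hwe : ∀ m, w m = ![floorAt P α m, floorAt Q β m] := by
    intro m
    funext i
    fin_cases i <;> rfl
  obtain ⟨κ₀, hκ₀, hS⟩ : ∃ κ₀ : ℝ, 0 < κ₀ ∧ Pool.Agent.N666.TM.WellSeq T w κ₀ := by
    obtain ⟨⟨ρ₁, hρ₁, hS₁⟩, ⟨ρ₂, hρ₂, hS₂⟩⟩ := Pool.Agent.N666.TM.fl_well hadm hinj
    rcases hT with rfl | rfl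
    · exact ⟨ρ₁, hρ₁, hS₁⟩
    · exact ⟨ρ₂, hρ₂, hS₂⟩
  have hD : ∀ m x, Pool.Agent.N666.TB.DA (mu S μ₀) x (w m) =
      Real.log (product S σ ρ (floorAt P α m) (floorAt Q β m) x) - center S σ ρ x := fun m x =>
    (DA_eq h1 h3 h4 _ _ x _ (hwe m)).2
  -- the mean values over the primes
  have m1 : Tendsto (Pool.Agent.W401.Cheb.M (Pool.Agent.N666.TB.kap (mu S μ₀))) atTop (𝓝 (schur ρ)) := by
    refine class_mean (f := fun g => ((ρ (g ^ 2)).trace).re) (fun g h => ?_) S σ hσ (fun p hp hpS => ?_)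
    · have e1 : (h⁻¹ * g * h) ^ 2 = h⁻¹ * g ^ 2 * h := by simp [sq, mul_assoc]
      simp only [e1, trace_conj]
    · unfold Pool.Agent.N666.TB.kap
      rw [dif_pos hp]
      show _ = ((ρ (σ p ^ 2)).trace).re
      rw [h3, Complex.re_sum]
      refine Finset.sum_congr rfl fun j _ => ?_
      have : mu S μ₀ ⟨p, hp⟩ j = μ₀ p j := if_neg hpS
      rw [this]
  have m2 : Tendsto (Pool.Agent.W401.Cheb.M (Pool.Agent.N666.TB.kap2 (mu S μ₀))) atTop (𝓝 (second ρ)) := by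
    refine class_mean (f := fun g => ((ρ g).trace).re ^ 2) (fun g h => ?_) S σ hσ (fun p hp hpS => ?_)
    · simp only [trace_conj]
    · unfold Pool.Agent.N666.TB.kap2
      rw [dif_pos hp]
      show _ = ((ρ (σ p)).trace).re ^ 2
      rw [h2, Complex.re_sum]
      congr 1
      unfold mA
      refine Finset.sum_congr rfl fun j _ => ?_
      have : mu S μ₀ ⟨p, hp⟩ j = μ₀ p j := if_neg hpS
      rw [this]
  have hV := Pool.Agent.N666.TB.XA_V hμ m2
  obtain ⟨C0, hC0, hnear⟩ := Pool.Agent.N666.TB.DA_near hμ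
  have hper : ∀ p, p.Prime → p ≠ 2 → Pool.Agent.N666.TB.Pd p (Pool.Agent.N666.TB.XA (mu S μ₀) p) :=
    fun p hp _ => Pool.Agent.N666.TB.XA_Pd _ hp
  have hX : ∀ p, p.Prime → p ≠ 2 → ∀ w, |Pool.Agent.N666.TB.XA (mu S μ₀) p w| ≤
      (16 * n) * Pool.Agent.N430.BP.ri p := fun p hp _ w => Pool.Agent.N666.TB.XA_le hμ hp w
  have hm : ∀ p, p.Prime → p ≠ 2 → Pool.Agent.N666.TB.PM p (Pool.Agent.N666.TB.XA (mu S μ₀) p) = 0 :=
    fun p hp _ => Pool.Agent.N666.TB.XA_mean _ hp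
  have hb0 : (0 : ℝ) ≤ 16 * n := by positivity
  refine ⟨fun A B x => (DA_eq h1 h3 h4 A B x _ rfl).1, ?_, ?_, ?_, ?_, ?_⟩
  · refine (Pool.Agent.N666.TB.kap_lim m1).congr fun x => ?_
    congr 1
    unfold Pool.Agent.N430.BP.Pr center
    rw [← Finset.filter_filter, Finset.sum_filter (p := fun p => p ∉ S)]
    refine Finset.sum_congr rfl fun p hp => ?_
    have hpp := (Finset.mem_filter.1 hp).2
    unfold Pool.Agent.N666.TB.kap
    rw [dif_pos hpp]
    by_cases hS : p ∈ S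
    · rw [if_neg (not_not.2 hS)]
      have : ∀ j, mu S μ₀ ⟨p, hpp⟩ j = 0 := fun j => if_pos hS
      simp [this]
    · rw [if_pos hS, h3, Complex.re_sum]
      congr 1
      refine Finset.sum_congr rfl fun j _ => ?_
      have : mu S μ₀ ⟨p, hpp⟩ j = μ₀ p j := if_neg hS
      rw [this]
  · intro ε A hε hA
    obtain ⟨B, hB, hsq⟩ := Pool.Agent.N666.TB.XA_sum_sq n
    obtain ⟨k, C, N₀, hk, hC, H⟩ := Pool.Agent.N666.TB.thin_law hκ₀ hS (Pool.Agent.N666.TB.XA (mu S μ₀))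
      (fun p => (16 * n) * Pool.Agent.N430.BP.ri p) (fun p => mul_nonneg hb0 (Pool.Agent.N430.BP.ri_nonneg p))
      hper hX hm hB hsq (Pool.Agent.N666.TB.DA (mu S μ₀)) hC0 (fun x hx w => hnear x (by omega) w) hε hA
    refine ⟨k, C, N₀, hk, fun N hN l hl => ?_⟩
    have h5 := H k le_rfl N hN l hl
    refine le_trans (le_of_eq ?_) h5
    have e : {m : ℕ | m ∈ T N ∧ Exceptional S σ ρ (floorAt P α m) (floorAt Q β m) ε l k N} =
        (((T N).filter fun m : ℕ => ∃ x : ℕ, 16 ≤ x ∧ x ^ k ≤ N ∧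
        l * Real.log (Real.log x) ^ (1 / 2 : ℝ) * (1 + Real.log (Real.log (Real.log x))) ^ ε <
          |Pool.Agent.N666.TB.DA (mu S μ₀) x (w m)| : Finset ℕ) : Set ℕ) := by
      ext m
      rw [Finset.mem_coe, Finset.mem_filter, Set.mem_ofPred_eq]
      unfold Exceptional
      simp only [hD]
    rw [e, Set.ncard_coe_finset]
  · intro hn
    have hv := second_pos ρ hn
    refine ⟨hv, fun x hx hxN z => ?_⟩
    have h5 := Pool.Agent.N666.TB.dist_thin hκ₀ hS (Pool.Agent.N666.TB.XA (mu S μ₀)) hb0 hper hX hm hv hV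
      (Pool.Agent.N666.TB.DA (mu S μ₀)) hC0 hnear hx hxN z
    have e0 : Pool.Agent.N666.TB.Phi z = normal z := rfl
    rw [e0] at h5
    refine h5.congr fun N => ?_
    congr 1
    have e : {m : ℕ | m ∈ T N ∧
        Real.log (product S σ ρ (floorAt P α m) (floorAt Q β m) (x N)) - center S σ ρ (x N) ≤
          z * √(second ρ * Real.log (Real.log (x N)))} =
        (((T N).filter fun m : ℕ => Pool.Agent.N666.TB.DA (mu S μ₀) (x N) (w m) ≤
          z * √(second ρ * Real.log (Real.log (x N))) : Finset ℕ) : Set ℕ) := by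
      ext m
      rw [Finset.mem_coe, Finset.mem_filter, Set.mem_ofPred_eq, hD]
    rw [e, Set.ncard_coe_finset]
  · intro x hx hxN κ _ y u hyx hy hyu t
    have h5 := Pool.Agent.N666.TB.fdd_thin hκ₀ hS (Pool.Agent.N666.TB.XA (mu S μ₀)) hb0 hper hX hm hV
      (Pool.Agent.N666.TB.DA (mu S μ₀)) hC0 hnear hx hxN y hyx hy u hyu t
    refine h5.congr fun N => ?_
    unfold Pool.Agent.N666.TB.SC
    simp only [hD]
  · intro hirr
    have hI : Irr ρ := hirr
    have hG : (0 : ℝ) < Nat.card Gal(F/ℚ) := by exact_mod_cast Nat.card_pos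
    have hsch : schur ρ = (∑ g : Gal(F/ℚ), (ρ (g ^ 2)).trace).re / Nat.card Gal(F/ℚ) := by
      unfold schur
      rw [Complex.re_sum]
    refine ⟨fun h0 => ?_, fun Y hY hu hT => ?_, fun Y hY hu hT => ?_⟩
    · obtain ⟨a1, a2⟩ := no_form (ρ := ρ) h0
      rw [hsch, second_eq hI, a1, a2]
      simp
    · obtain ⟨a1, a2⟩ := one_form hI hY hu (c := 1) (by rw [one_smul]; exact hT)
      rw [hsch, second_eq hI, a1, a2, ← Nat.card_eq_fintype_card]
      constructor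
      · rw [one_mul, Complex.natCast_re, div_self hG.ne']
      · rw [Complex.natCast_re, div_self hG.ne']
        norm_num
    · obtain ⟨a1, a2⟩ := one_form hI hY hu (c := -1) (by rw [neg_smul, one_smul]; exact hT)
      rw [hsch, second_eq hI, a1, a2, ← Nat.card_eq_fintype_card]
      constructor
      · rw [neg_one_mul, Complex.neg_re, Complex.natCast_re, neg_div, div_self hG.ne']
      · rw [Complex.natCast_re, div_self hG.ne']
        norm_num

end Pool.Agent.Results.MP_6073f3_nt.ThinTwistProducts
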